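import Pool.Agent.Y18.LC.Stm2

/-! LC-DSC: Leopoldt's conjecture descends to subfields -/

set_option autoImplicit false

namespace Pool.Agent.Y758.LC

open NumberField Pool.Agent.H637R2.Leo Filter Topology

theorem dsc : Pool.Agent.Y18.LC.DSC := by
  intro E E' _ _ _ _ f p _ h n ε hε hind a m ha hm
  let g : 𝓞 E →+* 𝓞 E' := RingOfIntegers.mapRingHom f
  have hg : Function.Injective g := by
    intro x y hxy
    apply RingOfIntegers.ext
    apply f.injective
    exact congrArg (fun z : 𝓞 E' => (z : E')) hxy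
  have hu : Function.Injective (Units.map (g : 𝓞 E →* 𝓞 E')) := Units.map_injective hg
  refine h n (fun i => Units.map (g : 𝓞 E →* 𝓞 E') (ε i)) ?_ ?_ a m ha ?_
  · intro i
    obtain ⟨j, hj⟩ := Ideal.mem_radical_iff.1 (hε i)
    rw [Ideal.mem_radical_iff]
    refine ⟨j, ?_⟩
    rw [Ideal.mem_span_singleton] at hj ⊢
    have h1 := map_dvd g hj
    simpa using h1
  · intro c hc
    apply hind
    apply hu
    rw [map_prod, map_one]
    simpa only [map_zpow] using hc
  · intro N
    filter_upwards [hm N] with j hj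
    have h1 := map_dvd g hj
    have h2 : (∏ i, (Units.map (g : 𝓞 E →* 𝓞 E') (ε i)) ^ m j i : (𝓞 E')ˣ) =
        Units.map (g : 𝓞 E →* 𝓞 E') (∏ i, ε i ^ m j i) := by
      rw [map_prod]
      simp only [map_zpow]
    rw [h2, Units.coe_map]
    simpa using h1

end Pool.Agent.Y758.LC
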