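import Pool.Agent.Y18.LC.Stm2
import Pool.Agent.Y447.LC.Gal

/-! LC-NSB: a prime which is nonsplit in `k` is nonsplit in `k M₀ / M₀` -/

set_option autoImplicit false
set_option linter.all false

namespace Pool.Agent.Y758.LC

open NumberField IsDedekindDomain Module Ideal
open scoped Pointwise

/-- orbit-stabilizer and the fundamental identity -/
theorem card_stab {A B G : Type} [CommRing A] [IsDomain A] [CommRing B] [IsDomain B] [Algebra A B]
    [Module.Finite A B] [Module.Flat A B] [Group G] [Finite G] [MulSemiringAction G B]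
    [IsGaloisGroup G A B] (p : Ideal A) [p.IsPrime] (P : Ideal B) [P.IsPrime] [P.LiesOver p] :
    Nat.card (MulAction.stabilizer G P) = P.ramificationIdx A * P.inertiaDeg A := by
  have h1 := ncard_primesOver_mul_ramificationIdxIn_mul_inertiaDegIn p B G
  have h2 : (p.primesOver B).ncard * Nat.card (MulAction.stabilizer G P) = Nat.card G := by
    rw [← Algebra.IsInvariant.orbit_eq_primesOver A B G p P]
    simpa using Nat.card_congr (MulAction.orbitProdStabilizerEquivGroup G P)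
  rw [ramificationIdxIn_eq_ramificationIdx p P G, inertiaDegIn_eq_inertiaDeg p P G] at h1
  have h3 : (p.primesOver B).ncard ≠ 0 := by
    intro h0
    rw [h0, zero_mul] at h2
    exact Nat.card_pos.ne h2
  exact Nat.eq_of_mul_eq_mul_left (Nat.pos_of_ne_zero h3) (h2.trans h1.symm)

open Pool.Agent.Y447.LC

section

variable {k F : Type} [Field k] [NumberField k] [Field F] [NumberField F] [Algebra k F]
  {M₀ : IntermediateField ℚ F}

/-- restriction and intersection with `𝓞 M₀` -/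
theorem under_smul (hG : IsGalois ℚ M₀) (g : F ≃ₐ[k] F) (W : Ideal (𝓞 F)) :
    (g • W).comap (algebraMap (𝓞 M₀) (𝓞 F)) =
      (res k M₀ hG g) • (W.comap (algebraMap (𝓞 M₀) (𝓞 F))) := by
  ext x
  rw [mem_pointwise_smul_iff_inv_smul_mem, mem_comap, mem_comap,
    mem_pointwise_smul_iff_inv_smul_mem]
  have h1 : g⁻¹ • algebraMap (𝓞 M₀) (𝓞 F) x =
      algebraMap (𝓞 M₀) (𝓞 F) ((res k M₀ hG g)⁻¹ • x) := by
    rw [← map_inv]
    apply RingOfIntegers.ext
    rfl
  rw [h1]

end

theorem nsb : Pool.Agent.Y18.LC.NSB := by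
  intro p _ r k F _ _ _ _ _ M₀ hG hM₀ htop hpk q hq hv w w' hqw hww
  have hp : p.Prime := Fact.out
  haveI hGk : IsGalois k F := gal_comp hG htop
  haveI := hG
  have hinj := res_inj (k := k) hG htop
  haveI : FiniteDimensional k F := by
    haveI : FiniteDimensional ℚ F := inferInstance
    exact FiniteDimensional.right ℚ k F
  haveI : FiniteDimensional ℚ M₀ := by
    apply FiniteDimensional.of_finrank_pos
    rw [hM₀]
    exact pow_pos hp.pos r
  have hc0 : Nat.card (M₀ ≃ₐ[ℚ] M₀) = p ^ r := by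
    rw [IsGalois.card_aut_eq_finrank, hM₀]
  set W := w.asIdeal with hW
  set V := W.under (𝓞 k) with hV
  set P := W.under (𝓞 M₀) with hP
  set Q := V.under ℤ with hQ
  haveI : W.IsPrime := w.isPrime
  haveI : Q.IsPrime := inferInstance
  haveI : W.LiesOver V := ⟨rfl⟩
  haveI : W.LiesOver P := ⟨rfl⟩
  haveI : V.LiesOver Q := ⟨rfl⟩
  haveI : W.LiesOver Q := LiesOver.trans W V Q
  haveI : P.LiesOver Q := by
    constructor
    have h1 : Q = W.under ℤ := over_def W Q
    rw [h1, hP, under_under]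
  have hqV : (q : 𝓞 k) ∈ V := by
    rw [hV, mem_comap, map_natCast]; exact hqw
  have hVne : ∀ V' : Ideal (𝓞 k), (q : 𝓞 k) ∈ V' → V' ≠ ⊥ := by
    rintro V' h rfl
    rw [mem_bot] at h
    exact hq.ne_zero (by exact_mod_cast h)
  -- `V` is the only prime over `Q`
  have huniq : ∀ V' : Ideal (𝓞 k), V'.IsPrime → (q : 𝓞 k) ∈ V' → V' = V := by
    intro V' hV' hqV'
    have h1 := hv ⟨V', hV', hVne V' hqV'⟩ ⟨V, inferInstance, hVne V hqV⟩ hqV' hqV
    exact congrArg HeightOneSpectrum.asIdeal h1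
  have hqQ : (q : ℤ) ∈ Q := by
    rw [hQ, mem_comap, map_natCast]; exact hqV
  have hover : primesOver Q (𝓞 k) = {V} := by
    ext V'
    rw [Set.mem_singleton_iff]
    constructor
    · rintro ⟨h1, h2⟩
      apply huniq V' h1
      have h3 : (q : ℤ) ∈ V'.under ℤ := by rw [← over_def V' Q]; exact hqQ
      rw [mem_comap, map_natCast] at h3
      exact h3
    · rintro rfl
      exact ⟨inferInstance, inferInstance⟩
  -- the sum formula
  have hsum : V.ramificationIdx ℤ * V.inertiaDeg ℤ = finrank ℚ k := by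
    haveI : Fintype (primesOver Q (𝓞 k)) := by rw [hover]; infer_instance
    have h1 := sum_ramification_inertia_eq_finrank Q (𝓞 k)
    haveI : Subsingleton (primesOver Q (𝓞 k)) := by rw [hover]; infer_instance
    rw [Fintype.sum_subsingleton _ (⟨V, inferInstance, inferInstance⟩ : primesOver Q (𝓞 k)),
      RingOfIntegers.rank] at h1
    exact h1
  have hSW := card_stab (G := F ≃ₐ[k] F) V W
  have hSP := card_stab (G := M₀ ≃ₐ[ℚ] M₀) Q P
  have ht1 := ramificationIdx_tower (R := ℤ) V W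
  have ht2 := inertiaDeg_tower (R := ℤ) V W
  have ht3 := ramificationIdx_tower (R := ℤ) P W
  have ht4 := inertiaDeg_tower (R := ℤ) P W
  have hprod : finrank ℚ k * Nat.card (MulAction.stabilizer (F ≃ₐ[k] F) W) =
      Nat.card (MulAction.stabilizer (M₀ ≃ₐ[ℚ] M₀) P) *
        (W.ramificationIdx (𝓞 M₀) * W.inertiaDeg (𝓞 M₀)) := by
    rw [hSW, hSP, ← hsum]
    calc _ = (V.ramificationIdx ℤ * W.ramificationIdx (𝓞 k)) *
          (V.inertiaDeg ℤ * W.inertiaDeg (𝓞 k)) := by ring
      _ = (P.ramificationIdx ℤ * W.ramificationIdx (𝓞 M₀)) *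
          (P.inertiaDeg ℤ * W.inertiaDeg (𝓞 M₀)) := by rw [← ht1, ← ht2, ht3, ht4]
      _ = _ := by ring
  have hdP : Nat.card (MulAction.stabilizer (M₀ ≃ₐ[ℚ] M₀) P) ∣ p ^ r := by
    rw [← hc0]
    exact Subgroup.card_subgroup_dvd_card _
  have hcop : Nat.Coprime (Nat.card (MulAction.stabilizer (M₀ ≃ₐ[ℚ] M₀) P)) (finrank ℚ k) :=
    Nat.Coprime.coprime_dvd_left hdP
      (Nat.Coprime.pow_left _ ((Nat.Prime.coprime_iff_not_dvd hp).2 hpk))
  have hdvd : Nat.card (MulAction.stabilizer (M₀ ≃ₐ[ℚ] M₀) P) ∣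
      Nat.card (MulAction.stabilizer (F ≃ₐ[k] F) W) := by
    apply hcop.dvd_of_dvd_mul_left
    rw [hprod]
    exact Dvd.intro _ rfl
  have hle : (MulAction.stabilizer (F ≃ₐ[k] F) W).map (res k M₀ hG) ≤
      MulAction.stabilizer (M₀ ≃ₐ[ℚ] M₀) P := by
    rintro _ ⟨g, hg, rfl⟩
    have hg' : g • W = W := hg
    show res k M₀ hG g • P = P
    have h1 := under_smul hG g W
    rw [hg'] at h1
    exact h1.symm
  have hmap : (MulAction.stabilizer (F ≃ₐ[k] F) W).map (res k M₀ hG) =
      MulAction.stabilizer (M₀ ≃ₐ[ℚ] M₀) P := by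
    apply Subgroup.eq_of_le_of_card_ge hle
    have h1 : Nat.card ((MulAction.stabilizer (F ≃ₐ[k] F) W).map (res k M₀ hG)) =
        Nat.card (MulAction.stabilizer (F ≃ₐ[k] F) W) :=
      Nat.card_congr (Subgroup.equivMapOfInjective _ (res k M₀ hG) hinj).toEquiv.symm
    rw [h1]
    exact Nat.le_of_dvd Nat.card_pos hdvd
  -- conclusion
  set W' := w'.asIdeal with hW'
  haveI : W'.IsPrime := w'.isPrime
  have hqW' : (q : 𝓞 F) ∈ W' := by
    have h1 : (q : 𝓞 M₀) ∈ P := by rw [hP, mem_comap, map_natCast]; exact hqw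
    have h2 : (q : 𝓞 M₀) ∈ W'.comap (algebraMap (𝓞 M₀) (𝓞 F)) := by rw [hww]; exact h1
    rw [mem_comap, map_natCast] at h2
    exact h2
  have hV' : W'.under (𝓞 k) = V := by
    apply huniq _ inferInstance
    rw [mem_comap, map_natCast]
    exact hqW'
  haveI : W'.LiesOver V := ⟨hV'.symm⟩
  obtain ⟨g, hg⟩ := exists_smul_eq_of_isGaloisGroup V W W' (F ≃ₐ[k] F)
  have hgP : res k M₀ hG g ∈ MulAction.stabilizer (M₀ ≃ₐ[ℚ] M₀) P := by
    show res k M₀ hG g • P = P
    have h1 := under_smul hG g W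
    rw [hg] at h1
    exact h1.symm.trans hww
  rw [← hmap] at hgP
  obtain ⟨g', hg', h2⟩ := hgP
  have h3 : g' = g := hinj h2
  have h4 : g • W = W := by rw [← h3]; exact hg'
  have h5 : W' = W := by rw [← hg, h4]
  exact HeightOneSpectrum.ext h5

end Pool.Agent.Y758.LC
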